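import Pool.Agent.Helper56.TOF.Goals

/-!
# Project TOF (MP_f32c9c_an), packet SMC
-/

set_option autoImplicit false

open Set Filter Topology MeasureTheory

open scoped ContDiff

namespace Pool.Agent.Helper14.TOF

open Pool.Agent.Helper56.RZ Pool.Agent.Helper30.CIR Pool.Agent.Helper56.TOF

/-- derivatives up to order `r` are bounded on compact sets -/
theorem bnd {X Y : Type*} [NormedAddCommGroup X] [NormedSpace ℝ X] [NormedAddCommGroup Y]
    [NormedSpace ℝ Y] (V : Set X) (hV : IsOpen V) (K : Set X) (hK : IsCompact K) (hKV : K ⊆ V)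
    (r : ℕ) (f : X → Y) (hf : ContDiffOn ℝ r f V) :
    ∃ D : ℝ, 1 ≤ D ∧ ∀ i ≤ r, ∀ z ∈ K, ‖iteratedFDerivWithin ℝ i f V z‖ ≤ D := by
  have h1 : ∀ i : ℕ, ∃ C : ℝ, i ≤ r → ∀ z ∈ K, ‖iteratedFDerivWithin ℝ i f V z‖ ≤ C := by
    intro i
    by_cases hi : i ≤ r
    · have hc : ContinuousOn (iteratedFDerivWithin ℝ i f V) K :=
        (hf.continuousOn_iteratedFDerivWithin (by exact_mod_cast hi) hV.uniqueDiffOn).mono hKV
      obtain ⟨C, hC⟩ := hK.exists_bound_of_continuousOn hc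
      exact ⟨C, fun _ => hC⟩
    · exact ⟨0, fun h => absurd h hi⟩
  choose C hC using h1
  refine ⟨1 + ∑ i ∈ Finset.range (r + 1), |C i|, ?_, ?_⟩
  · have : 0 ≤ ∑ i ∈ Finset.range (r + 1), |C i| := Finset.sum_nonneg (fun i _ => abs_nonneg _)
    linarith
  · intro i hi z hz
    have h2 := hC i hi z hz
    have h3 : |C i| ≤ ∑ j ∈ Finset.range (r + 1), |C j| :=
      Finset.single_le_sum (f := fun j => |C j|) (fun j _ => abs_nonneg _)
        (Finset.mem_range.2 (by omega))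
    have h4 := le_abs_self (C i)
    linarith

theorem ee_contDiff (n : WithTop ℕ∞) (hn : n ≤ ∞) : ContDiff ℝ n ee := by
  have h : ContDiff ℝ ∞ ee := by
    unfold ee
    apply ContDiff.cexp
    apply ContDiff.mul _ contDiff_const
    exact Complex.ofRealCLM.contDiff.comp (contDiff_const.mul contDiff_id)
  exact h.of_le hn

theorem ee_norm (x : ℝ) : ‖ee x‖ = 1 := by
  unfold ee
  exact Complex.norm_exp_ofReal_mul_I _

theorem ee_hasDerivAt (x : ℝ) : HasDerivAt ee ((2 * Real.pi * Complex.I) * ee x) x := by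
  have h0 : HasDerivAt (fun y : ℝ => 2 * Real.pi * y) (2 * Real.pi) x := by
    simpa using (hasDerivAt_id x).const_mul (2 * Real.pi)
  have h1 : HasDerivAt (fun y : ℝ => ((2 * Real.pi * y : ℝ) : ℂ) * Complex.I)
      (((2 * Real.pi : ℝ) : ℂ) * Complex.I) x := (h0.ofReal_comp).mul_const Complex.I
  have h2 := h1.cexp
  have h3 : HasDerivAt ee (Complex.exp (((2 * Real.pi * x : ℝ) : ℂ) * Complex.I) *
      (((2 * Real.pi : ℝ) : ℂ) * Complex.I)) x := h2
  refine h3.congr_deriv ?_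
  unfold ee
  push_cast
  ring

theorem ee_iter (n : ℕ) : iteratedDeriv n ee = fun x => (2 * Real.pi * Complex.I) ^ n * ee x := by
  induction n with
  | zero => funext x; simp
  | succ n ih =>
    funext x
    rw [iteratedDeriv_succ, ih]
    have h := (ee_hasDerivAt x).const_mul ((2 * Real.pi * Complex.I) ^ n)
    rw [h.deriv]
    ring

theorem ee_bound (n : ℕ) (x : ℝ) : ‖iteratedFDeriv ℝ n ee x‖ ≤ 7 ^ n := by
  rw [norm_iteratedFDeriv_eq_norm_iteratedDeriv, ee_iter]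
  simp only [norm_mul, norm_pow, ee_norm, mul_one, Complex.norm_I, Complex.norm_real,
    Real.norm_eq_abs, abs_of_pos Real.pi_pos]
  have h : ‖(2 : ℂ)‖ = 2 := by simp
  rw [h]
  have h2 : 2 * Real.pi ≤ 7 := by linarith [Real.pi_lt_d2]
  have h3 : 0 < Real.pi := Real.pi_pos
  gcongr

section

variable {X : Type*} [NormedAddCommGroup X] [NormedSpace ℝ X]

theorem smul_norm {Y : Type*} [NormedAddCommGroup Y] [NormedSpace ℝ Y] (V : Set X)
    (hV : UniqueDiffOn ℝ V) (r : ℕ) (f : X → Y) (hf : ContDiffOn ℝ r f V) (c : ℝ) (i : ℕ)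
    (hi : i ≤ r) (z : X) (hz : z ∈ V) :
    ‖iteratedFDerivWithin ℝ i (fun y => c • f y) V z‖ = |c| * ‖iteratedFDerivWithin ℝ i f V z‖ := by
  have h1 : ContDiffWithinAt ℝ i f V z := (hf z hz).of_le (by exact_mod_cast hi)
  have h2 := iteratedFDerivWithin_const_smul_apply (a := c) h1 hV hz
  have h3 : (fun y => c • f y) = c • f := rfl
  rw [h3, h2, norm_smul, Real.norm_eq_abs]

/-- derivatives of `e^(2 π i q al t)` -/
theorem expb (V : Set X) (hV : UniqueDiffOn ℝ V) (r : ℕ) (t : X → ℝ) (ht : ContDiffOn ℝ r t V)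
    (D : ℝ) (hD1 : 1 ≤ D) (z : X) (hz : z ∈ V)
    (hD : ∀ i ≤ r, ‖iteratedFDerivWithin ℝ i t V z‖ ≤ D) (q al : ℝ) (hq : 1 ≤ q) (h1 : 1 ≤ al)
    (h2 : al ≤ 2) (n : ℕ) (hn : n ≤ r) :
    ‖iteratedFDerivWithin ℝ n (fun z => ee (q * (al * t z))) V z‖ ≤
      (r.factorial : ℝ) * 7 ^ r * (2 * D) ^ r * q ^ r := by
  have hf : ContDiffOn ℝ r (fun z => (q * al) • t z) V := ht.const_smul (q * al)
  have e1 : (fun z => ee (q * (al * t z))) = ee ∘ (fun z => (q * al) • t z) := by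
    funext y
    simp only [Function.comp, smul_eq_mul, mul_assoc]
  have hee : ContDiffOn ℝ r ee univ := (ee_contDiff r (by exact_mod_cast le_top)).contDiffOn
  rw [e1]
  have hqa : 0 ≤ q * al := by positivity
  have h3 := norm_iteratedFDerivWithin_comp_le hee hf (n := n) (by exact_mod_cast hn)
    uniqueDiffOn_univ hV (mapsTo_univ _ _) hz (C := 7 ^ n) (D := 2 * D * q)
    (fun i hi => by
      rw [iteratedFDerivWithin_univ]
      exact (ee_bound i _).trans (pow_le_pow_right₀ (by norm_num) hi))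
    (fun i hi1 hi => by
      rw [smul_norm V hV r t ht (q * al) i (hi.trans hn) z hz, abs_of_nonneg hqa]
      have h4 := hD i (hi.trans hn)
      have h5 : 1 ≤ 2 * D * q := by nlinarith
      calc q * al * ‖iteratedFDerivWithin ℝ i t V z‖ ≤ q * 2 * D := by gcongr
        _ = (2 * D * q) ^ 1 := by ring
        _ ≤ (2 * D * q) ^ i := pow_le_pow_right₀ h5 hi1)
  refine h3.trans ?_
  rw [mul_pow (2 * D) q]
  have hD2 : 1 ≤ 2 * D := by linarith
  have a1 : (n.factorial : ℝ) ≤ r.factorial := by exact_mod_cast Nat.factorial_le hn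
  have a2 : (7 : ℝ) ^ n ≤ 7 ^ r := pow_le_pow_right₀ (by norm_num) hn
  have a3 : (2 * D) ^ n ≤ (2 * D) ^ r := pow_le_pow_right₀ hD2 hn
  have a4 : q ^ n ≤ q ^ r := pow_le_pow_right₀ hq hn
  calc (n.factorial : ℝ) * 7 ^ n * ((2 * D) ^ n * q ^ n)
      = (n.factorial : ℝ) * 7 ^ n * (2 * D) ^ n * q ^ n := by ring
    _ ≤ (r.factorial : ℝ) * 7 ^ r * (2 * D) ^ r * q ^ r := by gcongr

/-- derivatives of `c a e^(2 π i q al t)` -/
theorem zzb (V : Set X) (hV : UniqueDiffOn ℝ V) (r : ℕ) (α t : X → ℝ) (hα : ContDiffOn ℝ r α V)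
    (ht : ContDiffOn ℝ r t V) (D : ℝ) (hD1 : 1 ≤ D) (z : X) (hz : z ∈ V)
    (hDα : ∀ i ≤ r, ‖iteratedFDerivWithin ℝ i α V z‖ ≤ D)
    (hD : ∀ i ≤ r, ‖iteratedFDerivWithin ℝ i t V z‖ ≤ D) (q al : ℝ) (hq : 1 ≤ q) (h1 : 1 ≤ al)
    (h2 : al ≤ 2) (c : ℝ) (hc0 : 0 ≤ c) (hc : c * q ^ r ≤ 1) (n : ℕ) (hn : n ≤ r) :
    ‖iteratedFDerivWithin ℝ n (fun z => ((c * α z : ℝ) : ℂ) * ee (q * (al * t z))) V z‖ ≤
      2 ^ r * D * ((r.factorial : ℝ) * 7 ^ r * (2 * D) ^ r) := by
  have hee : ContDiffOn ℝ r (fun z => ee (q * (al * t z))) V :=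
    (ee_contDiff r (by exact_mod_cast le_top)).comp_contDiffOn
      (contDiffOn_const.mul (contDiffOn_const.mul ht))
  have e1 : (fun z => ((c * α z : ℝ) : ℂ) * ee (q * (al * t z))) =
      fun z => c • (fun z => α z • ee (q * (al * t z))) z := by
    funext y
    simp only [Complex.real_smul, Complex.ofReal_mul]
    ring
  have hs : ContDiffOn ℝ r (fun z => α z • ee (q * (al * t z))) V := hα.smul hee
  rw [e1, smul_norm V hV r _ hs c n hn z hz, abs_of_nonneg hc0]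
  set C1 : ℝ := (r.factorial : ℝ) * 7 ^ r * (2 * D) ^ r with hC1
  have hC10 : 0 ≤ C1 := by rw [hC1]; positivity
  have h3 := norm_iteratedFDerivWithin_smul_le hα hee hV hz (n := n) (by exact_mod_cast hn)
  have h4 : ∑ i ∈ Finset.range (n + 1), (n.choose i : ℝ) * ‖iteratedFDerivWithin ℝ i α V z‖ *
        ‖iteratedFDerivWithin ℝ (n - i) (fun z => ee (q * (al * t z))) V z‖ ≤
      ∑ i ∈ Finset.range (n + 1), (n.choose i : ℝ) * (D * (C1 * q ^ r)) := by
    apply Finset.sum_le_sum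
    intro i hi
    have hi' : i ≤ n := by
      have := Finset.mem_range.1 hi
      omega
    have b1 := hDα i (hi'.trans hn)
    have b2 := expb V hV r t ht D hD1 z hz hD q al hq h1 h2 (n - i) (by omega)
    rw [← hC1] at b2
    rw [mul_assoc]
    gcongr
  have h5 : ∑ i ∈ Finset.range (n + 1), (n.choose i : ℝ) * (D * (C1 * q ^ r)) =
      2 ^ n * (D * (C1 * q ^ r)) := by
    rw [← Finset.sum_mul]
    congr 1
    exact_mod_cast Nat.sum_range_choose n
  have h6 : (2 : ℝ) ^ n ≤ 2 ^ r := pow_le_pow_right₀ (by norm_num) hn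
  have hqr : 0 ≤ q ^ r := by positivity
  calc c * ‖iteratedFDerivWithin ℝ n (fun z => α z • ee (q * (al * t z))) V z‖
      ≤ c * (2 ^ n * (D * (C1 * q ^ r))) := by
        apply mul_le_mul_of_nonneg_left _ hc0
        rw [← h5]
        exact h3.trans h4
    _ = 2 ^ n * D * C1 * (c * q ^ r) := by ring
    _ ≤ 2 ^ n * D * C1 * 1 := by gcongr
    _ ≤ 2 ^ r * D * C1 := by rw [mul_one]; gcongr

theorem core (V : Set X) (hV : IsOpen V) (K : Set X) (hK : IsCompact K) (hKV : K ⊆ V)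
    (r : ℕ) (hr : 1 ≤ r) (α t : X → ℝ) (hα : ContDiffOn ℝ r α V) (ht : ContDiffOn ℝ r t V)
    (hα1 : ∀ z, 0 ≤ α z ∧ α z ≤ 1) (z0 : ℝ) (Φ : ℂ × ℝ × ℝ → ℝ) (hΦ : PF z0 Φ) (ε : ℝ)
    (hε : 0 < ε) : ∀ᶠ q : ℕ in atTop, ∀ al : ℝ, 1 ≤ al → al ≤ 2 → ∀ k ≤ r, ∀ z ∈ K,
      ‖iteratedFDeriv ℝ k (fun z => Φ (((cq q r * α z : ℝ) : ℂ) * ee (q * (al * t z)),
        al * t z, 1 / q) / (q * al)) z‖ ≤ ε := by
  have hVu : UniqueDiffOn ℝ V := hV.uniqueDiffOn
  obtain ⟨D1, hD1, hDα⟩ := bnd V hV K hK hKV r α hα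
  obtain ⟨D2, hD2, hDt⟩ := bnd V hV K hK hKV r t ht
  set D : ℝ := max D1 D2 with hD
  have hD0 : 1 ≤ D := hD1.trans (le_max_left _ _)
  have hDα' : ∀ i ≤ r, ∀ z ∈ K, ‖iteratedFDerivWithin ℝ i α V z‖ ≤ D :=
    fun i hi z hz => (hDα i hi z hz).trans (le_max_left _ _)
  have hDt' : ∀ i ≤ r, ∀ z ∈ K, ‖iteratedFDerivWithin ℝ i t V z‖ ≤ D :=
    fun i hi z hz => (hDt i hi z hz).trans (le_max_right _ _)
  -- the domain of Φ
  set T : Set (ℂ × ℝ × ℝ) := {v | ‖v.1‖ < z0 ∧ |v.2.2| < 2} with hT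
  have hTo : IsOpen T := by
    apply IsOpen.inter
    · exact isOpen_lt continuous_fst.norm continuous_const
    · exact isOpen_lt (continuous_snd.comp continuous_snd).abs continuous_const
  set K0 : Set (ℂ × ℝ × ℝ) := Metric.closedBall (0 : ℂ) (z0 / 2) ×ˢ
    (Icc (-(2 * D)) (2 * D) ×ˢ Icc (0 : ℝ) 1) with hK0
  have hK0c : IsCompact K0 :=
    (isCompact_closedBall _ _).prod (isCompact_Icc.prod isCompact_Icc)
  have hz0 := hΦ.pos
  have hK0T : K0 ⊆ T := by
    intro v hv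
    obtain ⟨h1, h2, h3⟩ := hv
    have h1' : ‖v.1‖ ≤ z0 / 2 := by simpa using h1
    refine ⟨by linarith, ?_⟩
    rw [abs_lt]
    exact ⟨by linarith [h3.1], by linarith [h3.2]⟩
  have hΦs : ContDiffOn ℝ r Φ T := hΦ.smooth.of_le (by exact_mod_cast le_top)
  obtain ⟨C, hC1, hC⟩ := bnd T hTo K0 hK0c hK0T r Φ hΦs
  set C2 : ℝ := 2 ^ r * D * ((r.factorial : ℝ) * 7 ^ r * (2 * D) ^ r) with hC2
  have hC20 : 0 ≤ C2 := by positivity
  set D3 : ℝ := C2 + 2 * D + 1 with hD3
  have hD31 : 1 ≤ D3 := by rw [hD3]; linarith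
  set C4 : ℝ := (r.factorial : ℝ) * C * D3 ^ r with hC4
  have hC40 : 0 ≤ C4 := by positivity
  obtain ⟨q1, hq1⟩ := exists_nat_ge (C4 / ε)
  obtain ⟨q2, hq2⟩ := exists_nat_ge (2 / z0)
  filter_upwards [eventually_ge_atTop q1, eventually_ge_atTop q2, eventually_ge_atTop 1]
    with q hqq1 hqq2 hq
  intro al hal1 hal2 k hk z hz
  have hqR : (1 : ℝ) ≤ q := by exact_mod_cast hq
  have hq0 : (0 : ℝ) < q := by linarith
  have hq1' : C4 ≤ q * ε := by
    have h1 : (q1 : ℝ) ≤ q := by exact_mod_cast hqq1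
    have h2 := hq1.trans h1
    rwa [div_le_iff₀ hε] at h2
  have hq2' : 2 ≤ q * z0 := by
    have h1 : (q2 : ℝ) ≤ q := by exact_mod_cast hqq2
    have h2 := hq2.trans h1
    rwa [div_le_iff₀ hz0] at h2
  have hcq0 : 0 < cq q r := by unfold cq; positivity
  have hcq1 : cq q r * (q : ℝ) ^ r ≤ 1 := by
    unfold cq
    rw [inv_mul_cancel₀ (by positivity)]
  have hcq2 : cq q r ≤ z0 / 2 := by
    have h1 : (q : ℝ) ^ 1 ≤ (q : ℝ) ^ r := pow_le_pow_right₀ hqR hr
    have h2 : cq q r * (q : ℝ) ^ 1 ≤ 1 := by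
      calc cq q r * (q : ℝ) ^ 1 ≤ cq q r * (q : ℝ) ^ r := by gcongr
        _ ≤ 1 := hcq1
    rw [pow_one] at h2
    by_contra hcon
    have h3 : z0 / 2 * q < cq q r * q := by
      apply mul_lt_mul_of_pos_right (not_le.1 hcon) hq0
    linarith
  set G : X → ℂ × ℝ × ℝ := fun z => (((cq q r * α z : ℝ) : ℂ) * ee (q * (al * t z)),
    al * t z, 1 / (q : ℝ)) with hG
  have hnorm : ∀ z, ‖(G z).1‖ ≤ cq q r := by
    intro z
    simp only [hG]
    rw [norm_mul, ee_norm, mul_one, Complex.norm_real, Real.norm_eq_abs,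
      abs_of_nonneg (mul_nonneg hcq0.le (hα1 z).1)]
    calc cq q r * α z ≤ cq q r * 1 := mul_le_mul_of_nonneg_left (hα1 z).2 hcq0.le
      _ = cq q r := mul_one _
  have h1q : 0 ≤ 1 / (q : ℝ) ∧ 1 / (q : ℝ) ≤ 1 := by
    constructor
    · positivity
    · rw [div_le_one hq0]; exact hqR
  have hmaps : MapsTo G V T := by
    intro z _
    refine ⟨lt_of_le_of_lt (hnorm z) (by linarith), ?_⟩
    show |1 / (q : ℝ)| < 2
    rw [abs_of_nonneg h1q.1]
    linarith [h1q.2]
  have hzz : ContDiffOn ℝ r (fun z => ((cq q r * α z : ℝ) : ℂ) * ee (q * (al * t z))) V := by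
    apply ContDiffOn.mul
    · exact Complex.ofRealCLM.contDiff.comp_contDiffOn (contDiffOn_const.mul hα)
    · exact (ee_contDiff r (by exact_mod_cast le_top)).comp_contDiffOn
        (contDiffOn_const.mul (contDiffOn_const.mul ht))
  have hat : ContDiffOn ℝ r (fun z => al * t z) V := contDiffOn_const.mul ht
  have hcst : ContDiffOn ℝ r (fun _ : X => 1 / (q : ℝ)) V := contDiffOn_const
  have hGs : ContDiffOn ℝ r G V := hzz.prodMk (hat.prodMk hcst)
  have hzV := hKV hz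
  have hGK : G z ∈ K0 := by
    refine ⟨?_, ?_, ?_⟩
    · have := (hnorm z).trans hcq2
      simpa using this
    · have h1 := hDt' 0 (Nat.zero_le _) z hz
      rw [norm_iteratedFDerivWithin_zero, Real.norm_eq_abs] at h1
      have h2 := abs_le.1 h1
      show al * t z ∈ Icc (-(2 * D)) (2 * D)
      constructor
      · nlinarith [h2.1, h2.2]
      · nlinarith [h2.1, h2.2]
    · exact h1q
  have hGD : ∀ i, 1 ≤ i → i ≤ k → ‖iteratedFDerivWithin ℝ i G V z‖ ≤ D3 ^ i := by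
    intro i hi1 hik
    have hir : i ≤ r := hik.trans hk
    have hirW : (i : WithTop ℕ∞) ≤ (r : WithTop ℕ∞) := by exact_mod_cast hir
    have e1 : iteratedFDerivWithin ℝ i G V z =
        (iteratedFDerivWithin ℝ i (fun z => ((cq q r * α z : ℝ) : ℂ) *
          ee (q * (al * t z))) V z).prod
        ((iteratedFDerivWithin ℝ i (fun z => al * t z) V z).prod
          (iteratedFDerivWithin ℝ i (fun _ => 1 / (q : ℝ)) V z)) := by
      rw [← iteratedFDerivWithin_prodMk (hat z hzV) (hcst z hzV) hVu hzV hirW,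
        ← iteratedFDerivWithin_prodMk (hzz z hzV) ((hat z hzV).prodMk (hcst z hzV)) hVu hzV hirW]
    rw [e1, ContinuousMultilinearMap.opNorm_prod, ContinuousMultilinearMap.opNorm_prod]
    have b1 := zzb V hVu r α t hα ht D hD0 z hzV (fun i hi => hDα' i hi z hz)
      (fun i hi => hDt' i hi z hz) q al hqR hal1 hal2 (cq q r) hcq0.le hcq1 i hir
    have b2 : ‖iteratedFDerivWithin ℝ i (fun z => al * t z) V z‖ ≤ 2 * D := by
      have h1 := smul_norm V hVu r t ht al i hir z hzV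
      have h2 : (fun y => al • t y) = fun z => al * t z := rfl
      rw [h2] at h1
      rw [h1, abs_of_nonneg (by linarith)]
      have h3 := hDt' i hir z hz
      gcongr
    have b3 : ‖iteratedFDerivWithin ℝ i (fun _ : X => 1 / (q : ℝ)) V z‖ = 0 := by
      rw [iteratedFDerivWithin_const_of_ne (by omega)]
      simp
    have h4 : max ‖iteratedFDerivWithin ℝ i (fun z => ((cq q r * α z : ℝ) : ℂ) *
          ee (q * (al * t z))) V z‖ (max ‖iteratedFDerivWithin ℝ i (fun z => al * t z) V z‖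
          ‖iteratedFDerivWithin ℝ i (fun _ : X => 1 / (q : ℝ)) V z‖) ≤ D3 := by
      apply max_le
      · refine b1.trans ?_
        rw [← hC2, hD3]
        linarith
      · apply max_le
        · refine b2.trans ?_
          rw [hD3]
          linarith
        · rw [b3]
          linarith
    refine h4.trans ?_
    calc D3 = D3 ^ 1 := (pow_one _).symm
      _ ≤ D3 ^ i := pow_le_pow_right₀ hD31 hi1
  have hmain := norm_iteratedFDerivWithin_comp_le hΦs hGs (n := k) (by exact_mod_cast hk)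
    hTo.uniqueDiffOn hVu hmaps hzV (C := C) (D := D3)
    (fun i hi => hC i (hi.trans hk) _ hGK) hGD
  have hcomp : ContDiffOn ℝ r (Φ ∘ G) V := hΦs.comp hGs hmaps
  have e2 : (fun z => Φ (((cq q r * α z : ℝ) : ℂ) * ee (q * (al * t z)),
        al * t z, 1 / q) / (q * al)) = fun z => ((q * al : ℝ)⁻¹) • (Φ ∘ G) z := by
    funext y
    simp only [Function.comp, smul_eq_mul, hG]
    rw [div_eq_inv_mul]
  rw [← iteratedFDerivWithin_of_isOpen k hV hzV, e2,
    smul_norm V hVu r _ hcomp _ k hk z hzV]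
  have hqal : (q : ℝ) ≤ q * al := by nlinarith
  rw [abs_of_nonneg (by positivity), inv_mul_le_iff₀ (by positivity)]
  have a1 : (k.factorial : ℝ) ≤ r.factorial := by exact_mod_cast Nat.factorial_le hk
  have a2 : D3 ^ k ≤ D3 ^ r := pow_le_pow_right₀ hD31 hk
  calc ‖iteratedFDerivWithin ℝ k (Φ ∘ G) V z‖ ≤ (k.factorial : ℝ) * C * D3 ^ k := hmain
    _ ≤ C4 := by rw [hC4]; gcongr
    _ ≤ q * ε := hq1'
    _ ≤ q * al * ε := by gcongr

end

theorem gSMC : StmtSMC := by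
  intro N K r s M A b B tau p b0 z0 Φ hr hrs hs hB hb0 hΦ ι _ c L hL ε hε
  have hall : ∀ i, ∀ᶠ q : ℕ in atTop, ∀ al : ℝ, 1 ≤ al → al ≤ 2 → ∀ k ≤ r, ∀ z ∈ L i,
      ‖iteratedFDeriv ℝ k (fun z => th Φ B tau b0 q r al ((c i).ψ z)) z‖ ≤ ε := by
    intro i
    obtain ⟨hLc, hLV⟩ := hL i
    have hψr : ContDiffOn ℝ r (c i).ψ (c i).V := (c i).smoothψ.of_le (hrs.trans hs)
    have hBr : ContDiffOn ℝ r B M := hB.Bsm.of_le hrs
    have hBψ : ContDiffOn ℝ r (fun z => B ((c i).ψ z)) (c i).V :=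
      hBr.comp hψr (fun z hz => ((c i).mapsψ z hz).1)
    set V' : Set (E N) := (c i).V ∩ (fun z => B ((c i).ψ z)) ⁻¹' Ioi 0 with hV'
    have hV'o : IsOpen V' := hBψ.continuousOn.isOpen_inter_preimage (c i).openV isOpen_Ioi
    set K' : Set (E N) := L i ∩ (fun z => B ((c i).ψ z)) ⁻¹' Ici b0 with hK'
    have hK'c : IsCompact K' := by
      have h1 : IsClosed K' :=
        (hBψ.continuousOn.mono hLV).preimage_isClosed_of_isClosed hLc.isClosed isClosed_Ici
      exact hLc.of_isClosed_subset h1 inter_subset_left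
    have hK'V : K' ⊆ V' := fun z hz => ⟨hLV hz.1, lt_of_lt_of_le hb0 hz.2⟩
    have hα : ContDiffOn ℝ r (fun z => am B b0 ((c i).ψ z)) V' := by
      unfold am
      have h1 : ContDiff ℝ r Real.smoothTransition := Real.smoothTransition.contDiff (n := (r : ℕ∞))
      exact h1.comp_contDiffOn (((hBψ.mono inter_subset_left).div_const b0).sub contDiffOn_const)
    have ht : ContDiffOn ℝ r (fun z => tau ((c i).ψ z)) V' := by
      have h1 : ContDiffOn ℝ r tau (M ∩ {x | 0 < B x}) := hB.tsm.of_le hrs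
      exact h1.comp (hψr.mono inter_subset_left)
        (fun z hz => ⟨((c i).mapsψ z hz.1).1, hz.2⟩)
    have hcore := core V' hV'o K' hK'c hK'V r hr (fun z => am B b0 ((c i).ψ z))
      (fun z => tau ((c i).ψ z)) hα ht
      (fun z => ⟨Real.smoothTransition.nonneg _, Real.smoothTransition.le_one _⟩) z0 Φ hΦ ε hε
    filter_upwards [hcore] with q hq
    intro al hal1 hal2 k hk z hz
    by_cases hzB : b0 ≤ B ((c i).ψ z)
    · exact hq al hal1 hal2 k hk z ⟨hz, hzB⟩
    · have hlt : B ((c i).ψ z) < b0 := not_le.1 hzB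
      have hcont : ContinuousAt (fun z => B ((c i).ψ z)) z :=
        hBψ.continuousOn.continuousAt ((c i).openV.mem_nhds (hLV hz))
      have hev : (fun z => th Φ B tau b0 q r al ((c i).ψ z)) =ᶠ[𝓝 z] fun _ => (0 : ℝ) := by
        filter_upwards [hcont.eventually_lt continuousAt_const hlt] with y hy
        have h1 : am B b0 ((c i).ψ y) = 0 := by
          unfold am
          apply Real.smoothTransition.zero_of_nonpos
          have : B ((c i).ψ y) / b0 < 1 := by
            rw [div_lt_one hb0]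
            exact hy
          linarith
        unfold th zz
        rw [h1]
        simp [hΦ.zero]
      rw [(hev.iteratedFDeriv ℝ k).eq_of_nhds]
      have h0 : iteratedFDeriv ℝ k (fun _ : E N => (0 : ℝ)) = 0 := iteratedFDeriv_fun_zero
      rw [h0]
      simpa using hε.le
  have h2 := eventually_all.2 hall
  obtain ⟨q0, hq0⟩ := eventually_atTop.1 h2
  exact ⟨q0, fun q hq al h1 h2 i k hk z hz => hq0 q hq i al h1 h2 k hk z hz⟩

end Pool.Agent.Helper14.TOF
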